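import Mathlib.LinearAlgebra.Matrix.PosDef
import Mathlib.LinearAlgebra.Matrix.Notation
import Mathlib.LinearAlgebra.Matrix.Trace
import Mathlib.Analysis.Complex.Basic
import Mathlib.Analysis.SpecialFunctions.Pow.Real
import Mathlib.Tactic

/-!
# Uniform measurements of `N` qubits: definitions and general facts
-/

namespace Pool.Agent.Q204.UC

open Finset Matrix
open scoped ComplexOrder

/-- bit strings of length `N` -/
abbrev Str (N : ℕ) : Type := Fin N → Fin 2

/-- operators on `N` qubits -/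
abbrev Op (N : ℕ) : Type := Matrix (Str N) (Str N) ℂ

/-- the Pauli matrix `X` -/
def pX : Matrix (Fin 2) (Fin 2) ℂ := !![0, 1; 1, 0]

/-- the Pauli matrix `Y` -/
def pY : Matrix (Fin 2) (Fin 2) ℂ := !![0, -Complex.I; Complex.I, 0]

/-- the Pauli matrix `Z` -/
def pZ : Matrix (Fin 2) (Fin 2) ℂ := !![1, 0; 0, -1]

/-- `σ_n = n_x X + n_y Y + n_z Z` -/
def sig (n : Fin 3 → ℝ) : Matrix (Fin 2) (Fin 2) ℂ :=
  (n 0 : ℂ) • pX + (n 1 : ℂ) • pY + (n 2 : ℂ) • pZ

/-- the tensor product of single qubit operators -/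
def tens {N : ℕ} (A : Fin N → Matrix (Fin 2) (Fin 2) ℂ) : Op N := fun x y => ∏ i, A i (x i) (y i)

/-- the operator `⊗_{i ∈ I} σ_n^{(i)}` -/
def obs {N : ℕ} (n : Fin 3 → ℝ) (I : Finset (Fin N)) : Op N :=
  tens fun i => if i ∈ I then sig n else 1

/-- `D_ρ(n, I) = Tr (ρ ⊗_{i ∈ I} σ_n^{(i)})` -/
noncomputable def data {N : ℕ} (ρ : Op N) (n : Fin 3 → ℝ) (I : Finset (Fin N)) : ℂ :=
  (ρ * obs n I).trace

/-- `|ψ⟩⟨ψ|` -/
def proj {N : ℕ} (ψ : Str N → ℂ) : Op N := vecMulVec ψ (star ψ)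

/-- unit vectors -/
def UnitVec {N : ℕ} (ψ : Str N → ℂ) : Prop := ∑ s, ‖ψ s‖ ^ 2 = 1

/-- density matrices -/
def IsState {N : ℕ} (ρ : Op N) : Prop := ρ.PosSemidef ∧ ρ.trace = 1

/-- the same data in all uniform measurements -/
def SameData {N : ℕ} (ρ τ : Op N) : Prop :=
  ∀ n : Fin 3 → ℝ, ∑ k, n k ^ 2 = 1 → ∀ I, data ρ n I = data τ n I

/-- uniformly certifiable under the promise `C` -/
def Certifiable {N : ℕ} (C : Set (Op N)) (ψ : Str N → ℂ) : Prop :=
  ∀ ρ ∈ C, SameData ρ (proj ψ) → ρ = proj ψ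

/-- the pure states -/
def pureStates (N : ℕ) : Set (Op N) := {ρ | ∃ φ : Str N → ℂ, UnitVec φ ∧ ρ = proj φ}

/-- all states -/
def allStates (N : ℕ) : Set (Op N) := {ρ | IsState ρ}

variable {N : ℕ}

/-! ### tensor products -/

theorem tens_mul (A B : Fin N → Matrix (Fin 2) (Fin 2) ℂ) :
    tens A * tens B = tens fun i => A i * B i := by
  ext x y
  simp only [tens, Matrix.mul_apply]
  rw [Finset.prod_univ_sum, Fintype.piFinset_univ]
  refine Finset.sum_congr rfl fun z _ => ?_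
  rw [Finset.prod_mul_distrib]

theorem tens_one : tens (fun _ : Fin N => (1 : Matrix (Fin 2) (Fin 2) ℂ)) = 1 := by
  ext x y
  simp only [tens, Matrix.one_apply]
  by_cases h : x = y
  · subst h; simp
  · rw [if_neg h]
    obtain ⟨i, hi⟩ := Function.ne_iff.1 h
    exact Finset.prod_eq_zero (Finset.mem_univ i) (by simp [hi])

theorem tens_smul (c : Fin N → ℂ) (A : Fin N → Matrix (Fin 2) (Fin 2) ℂ) :
    tens (fun i => c i • A i) = (∏ i, c i) • tens A := by
  ext x y
  simp only [tens, Matrix.smul_apply, smul_eq_mul]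
  rw [Finset.prod_mul_distrib]

theorem tens_sum (A : Fin N → Fin 2 → Matrix (Fin 2) (Fin 2) ℂ) :
    tens (fun i => ∑ b, A i b) = ∑ e : Str N, tens fun i => A i (e i) := by
  ext x y
  rw [Matrix.sum_apply]
  simp only [tens, Matrix.sum_apply]
  rw [Finset.prod_univ_sum, Fintype.piFinset_univ]

theorem tens_conj (A : Fin N → Matrix (Fin 2) (Fin 2) ℂ) :
    (tens A)ᴴ = tens fun i => (A i)ᴴ := by
  ext x y
  simp only [tens, Matrix.conjTranspose_apply]
  rw [star_prod]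

theorem sig_sq {n : Fin 3 → ℝ} (h : ∑ k, n k ^ 2 = 1) : sig n * sig n = 1 := by
  have h' : (n 0 : ℂ) ^ 2 + (n 1 : ℂ) ^ 2 + (n 2 : ℂ) ^ 2 = 1 := by
    rw [Fin.sum_univ_three] at h
    exact_mod_cast h
  have hI := Complex.I_sq
  ext a b
  fin_cases a <;> fin_cases b <;>
    simp [sig, pX, pY, pZ, Matrix.mul_apply, Fin.sum_univ_two] <;>
    first
    | ring1
    | linear_combination h' - (n 1 : ℂ) ^ 2 * hI

theorem sig_conj (n : Fin 3 → ℝ) : (sig n)ᴴ = sig n := by
  ext a b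
  fin_cases a <;> fin_cases b <;> simp [sig, pX, pY, pZ]

theorem obs_mul {n : Fin 3 → ℝ} (h : ∑ k, n k ^ 2 = 1) (I J : Finset (Fin N)) :
    obs n I * obs n J = obs n (symmDiff I J) := by
  unfold obs
  rw [tens_mul]
  congr 1
  funext i
  by_cases h1 : i ∈ I <;> by_cases h2 : i ∈ J <;>
    simp [h1, h2, Finset.mem_symmDiff, sig_sq h]

theorem obs_conj (n : Fin 3 → ℝ) (I : Finset (Fin N)) : (obs n I)ᴴ = obs n I := by
  unfold obs
  rw [tens_conj]
  congr 1
  funext i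
  by_cases h1 : i ∈ I <;> simp [h1, sig_conj]

theorem data_proj (φ : Str N → ℂ) (n : Fin 3 → ℝ) (I : Finset (Fin N)) :
    data (proj φ) n I = star φ ⬝ᵥ (obs n I *ᵥ φ) := by
  unfold data proj
  rw [Matrix.trace_mul_comm, Matrix.mul_vecMulVec, Matrix.trace_vecMulVec, dotProduct_comm]

/-! ### the total spin -/

/-- `∑ i σ_n^{(i)}` -/
noncomputable def tot (N : ℕ) (n : Fin 3 → ℝ) : Op N := ∑ i, obs n {i}

/-- annihilated by the total spin in all directions -/
def Singlet (φ : Str N → ℂ) : Prop := ∀ n : Fin 3 → ℝ, ∑ k, n k ^ 2 = 1 → tot N n *ᵥ φ = 0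

theorem tot_normSq {n : Fin 3 → ℝ} (h : ∑ k, n k ^ 2 = 1) (φ : Str N → ℂ) :
    star (tot N n *ᵥ φ) ⬝ᵥ (tot N n *ᵥ φ) =
      ∑ i, ∑ j, data (proj φ) n (symmDiff {i} {j}) := by
  rw [Matrix.star_mulVec, ← Matrix.dotProduct_mulVec, Matrix.mulVec_mulVec]
  have h1 : (tot N n)ᴴ * tot N n = ∑ i, ∑ j, obs n (symmDiff {i} {j}) := by
    unfold tot
    rw [Matrix.conjTranspose_sum]
    simp only [obs_conj]
    rw [Finset.sum_mul]
    refine Finset.sum_congr rfl fun i _ => ?_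
    rw [Finset.mul_sum]
    exact Finset.sum_congr rfl fun j _ => obs_mul h _ _
  rw [h1, Matrix.sum_mulVec, dotProduct_sum]
  refine Finset.sum_congr rfl fun i _ => ?_
  rw [Matrix.sum_mulVec, dotProduct_sum]
  exact Finset.sum_congr rfl fun j _ => (data_proj φ n _).symm

theorem singlet_of_sameData {φ ψ : Str N → ℂ} (h : SameData (proj φ) (proj ψ))
    (hψ : Singlet ψ) : Singlet φ := by
  intro n hn
  apply dotProduct_star_self_eq_zero.1
  rw [tot_normSq hn]
  have h1 : ∑ i, ∑ j, data (proj φ) n (symmDiff {i} {j}) =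
      ∑ i, ∑ j, data (proj ψ) n (symmDiff {i} {j}) :=
    Finset.sum_congr rfl fun i _ => Finset.sum_congr rfl fun j _ => h n hn _
  rw [h1, ← tot_normSq hn, hψ n hn]
  simp

/-! ### the spectral projections -/

/-- the sign `(-1)^b` -/
def sg (b : Fin 2) : ℂ := if b = 0 then 1 else -1

/-- the projections `(1 ± σ_n) / 2` -/
noncomputable def P1 (n : Fin 3 → ℝ) (b : Fin 2) : Matrix (Fin 2) (Fin 2) ℂ :=
  (1 / 2 : ℂ) • (1 + sg b • sig n)

theorem P1_sum (n : Fin 3 → ℝ) : ∑ b, P1 n b = 1 := by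
  rw [Fin.sum_univ_two]
  unfold P1 sg
  simp only [if_true, one_smul]
  rw [if_neg (by decide)]
  ext a b
  simp only [Matrix.add_apply, Matrix.smul_apply, smul_eq_mul]
  ring

theorem sg_sq (b : Fin 2) : sg b * sg b = 1 := by
  fin_cases b <;> simp [sg]

theorem sig_P1 {n : Fin 3 → ℝ} (h : ∑ k, n k ^ 2 = 1) (b : Fin 2) :
    sig n * P1 n b = sg b • P1 n b := by
  unfold P1
  rw [Matrix.mul_smul, Matrix.mul_add, Matrix.mul_one, Matrix.mul_smul, sig_sq h,
    smul_comm (sg b) (1 / 2 : ℂ), smul_add (sg b) 1, smul_smul (sg b) (sg b), sg_sq, one_smul,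
    add_comm]

theorem P1_sig {n : Fin 3 → ℝ} (h : ∑ k, n k ^ 2 = 1) (b : Fin 2) :
    P1 n b * sig n = sg b • P1 n b := by
  unfold P1
  rw [Matrix.smul_mul, Matrix.add_mul, Matrix.one_mul, Matrix.smul_mul, sig_sq h,
    smul_comm (sg b) (1 / 2 : ℂ), smul_add (sg b) 1, smul_smul (sg b) (sg b), sg_sq, one_smul,
    add_comm]

/-- the joint spectral projections -/
noncomputable def PP (n : Fin 3 → ℝ) (e : Str N) : Op N := tens fun i => P1 n (e i)

theorem PP_sum (n : Fin 3 → ℝ) : ∑ e : Str N, PP n e = 1 := by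
  unfold PP
  rw [← tens_sum fun _ b => P1 n b]
  simp only [P1_sum]
  exact tens_one

theorem obs_PP {n : Fin 3 → ℝ} (h : ∑ k, n k ^ 2 = 1) (I : Finset (Fin N)) (e : Str N) :
    obs n I * PP n e = (∏ i ∈ I, sg (e i)) • PP n e := by
  unfold obs PP
  rw [tens_mul]
  have : ∀ i, (if i ∈ I then sig n else 1) * P1 n (e i) =
      (if i ∈ I then sg (e i) else 1) • P1 n (e i) := by
    intro i
    by_cases hi : i ∈ I
    · rw [if_pos hi, if_pos hi, sig_P1 h]
    · rw [if_neg hi, if_neg hi, one_mul, one_smul]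
  simp only [this]
  rw [tens_smul fun i => if i ∈ I then sg (e i) else 1, Finset.prod_ite_mem, Finset.univ_inter]

theorem PP_obs {n : Fin 3 → ℝ} (h : ∑ k, n k ^ 2 = 1) (I : Finset (Fin N)) (e : Str N) :
    PP n e * obs n I = (∏ i ∈ I, sg (e i)) • PP n e := by
  unfold obs PP
  rw [tens_mul]
  have : ∀ i, P1 n (e i) * (if i ∈ I then sig n else 1) =
      (if i ∈ I then sg (e i) else 1) • P1 n (e i) := by
    intro i
    by_cases hi : i ∈ I
    · rw [if_pos hi, if_pos hi, P1_sig h]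
    · rw [if_neg hi, if_neg hi, mul_one, one_smul]
  simp only [this]
  rw [tens_smul fun i => if i ∈ I then sg (e i) else 1, Finset.prod_ite_mem, Finset.univ_inter]

theorem PP_tot {n : Fin 3 → ℝ} (h : ∑ k, n k ^ 2 = 1) (e : Str N) :
    PP n e * tot N n = (∑ i, sg (e i)) • PP n e := by
  unfold tot
  rw [Finset.mul_sum, Finset.sum_smul]
  refine Finset.sum_congr rfl fun i _ => ?_
  rw [PP_obs h, Finset.prod_singleton]

/-- the global reflection acts as `-1` on singlets of six qubits -/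
theorem refl_singlet {n : Fin 3 → ℝ} (h : ∑ k, n k ^ 2 = 1) {φ : Str 6 → ℂ} (hφ : Singlet φ) :
    obs n univ *ᵥ φ = -φ := by
  have key : ∀ e : Str 6, (∑ i, (if e i = 0 then (1 : ℤ) else -1)) = 0 →
      (∏ i, (if e i = 0 then (1 : ℤ) else -1)) = -1 := by decide +kernel
  have hc : ∀ b : Fin 2, sg b = ((if b = 0 then (1 : ℤ) else -1 : ℤ) : ℂ) := by
    intro b
    unfold sg
    split_ifs <;> simp
  have h1 : ∀ e : Str 6, (obs n univ * PP n e) *ᵥ φ = -(PP n e *ᵥ φ) := by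
    intro e
    rw [obs_PP h, Matrix.smul_mulVec]
    have h2 : (∑ i, sg (e i)) • (PP n e *ᵥ φ) = 0 := by
      rw [← Matrix.smul_mulVec, ← PP_tot h, ← Matrix.mulVec_mulVec, hφ n h, Matrix.mulVec_zero]
    by_cases h3 : (∑ i, (if e i = 0 then (1 : ℤ) else -1)) = 0
    · have h4 := key e h3
      have h5 : ∏ i, sg (e i) = -1 := by
        simp only [hc]
        exact_mod_cast h4
      rw [h5, neg_smul, one_smul]
    · have h4 : ∑ i, sg (e i) ≠ 0 := by
        simp only [hc]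
        exact_mod_cast h3
      rw [smul_eq_zero_iff_right h4] at h2
      rw [h2, smul_zero, neg_zero]
  calc obs n univ *ᵥ φ = (obs n univ * ∑ e : Str 6, PP n e) *ᵥ φ := by rw [PP_sum, mul_one]
    _ = ∑ e : Str 6, (obs n univ * PP n e) *ᵥ φ := by rw [Finset.mul_sum, Matrix.sum_mulVec]
    _ = -∑ e : Str 6, PP n e *ᵥ φ := by
        rw [← Finset.sum_neg_distrib]
        exact Finset.sum_congr rfl fun e _ => h1 e
    _ = -φ := by rw [← Matrix.sum_mulVec, PP_sum, Matrix.one_mulVec]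

/-- the vertical direction -/
def ez : Fin 3 → ℝ := ![0, 0, 1]

theorem ez_unit : ∑ k, ez k ^ 2 = 1 := by
  simp [ez, Fin.sum_univ_three]

/-- reflections map the vertical direction to every other one -/
theorem exists_refl {n : Fin 3 → ℝ} (h : ∑ k, n k ^ 2 = 1) :
    ∃ m : Fin 3 → ℝ, ∑ k, m k ^ 2 = 1 ∧ sig m * sig ez * sig m = sig n := by
  rw [Fin.sum_univ_three] at h
  by_cases h1 : n 2 = -1
  · have h2 : n 0 = 0 ∧ n 1 = 0 := by
      constructor <;> nlinarith [sq_nonneg (n 0), sq_nonneg (n 1)]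
    refine ⟨![1, 0, 0], by simp [Fin.sum_univ_three], ?_⟩
    ext a b
    fin_cases a <;> fin_cases b <;>
      simp [sig, pX, pY, pZ, ez, Matrix.mul_apply, Fin.sum_univ_two, h1, h2.1, h2.2]
  · have h3 : 0 < 2 + 2 * n 2 := by
      have h4 : -1 ≤ n 2 := by nlinarith [sq_nonneg (n 0), sq_nonneg (n 1)]
      rcases h4.lt_or_eq with h5 | h5
      · linarith
      · exact absurd h5.symm h1
    set r := Real.sqrt (2 + 2 * n 2) with hr
    have hr0 : 0 < r := Real.sqrt_pos.2 h3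
    have hr2 : r ^ 2 = 2 + 2 * n 2 := Real.sq_sqrt h3.le
    refine ⟨![n 0 / r, n 1 / r, (n 2 + 1) / r], ?_, ?_⟩
    · rw [Fin.sum_univ_three]
      simp only [Matrix.cons_val_zero, Matrix.cons_val_one, Matrix.cons_val_two, Matrix.head_cons,
        Matrix.tail_cons]
      field_simp
      rw [hr2]
      linarith
    · have hrc : (r : ℂ) ≠ 0 := by exact_mod_cast hr0.ne'
      have hrc2 : (r : ℂ) ^ 2 = 2 + 2 * (n 2 : ℂ) := by exact_mod_cast hr2
      have hc : (n 0 : ℂ) ^ 2 + (n 1 : ℂ) ^ 2 + (n 2 : ℂ) ^ 2 = 1 := by exact_mod_cast h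
      have hI := Complex.I_sq
      have e1 : sig ![n 0 / r, n 1 / r, (n 2 + 1) / r] = (r : ℂ)⁻¹ • (sig n + sig ez) := by
        ext a b
        fin_cases a <;> fin_cases b <;>
          simp [sig, pX, pY, pZ, ez] <;> field_simp <;> ring
      have e2 : (sig n + sig ez) * sig ez * (sig n + sig ez) = ((r : ℂ) ^ 2) • sig n := by
        rw [hrc2]
        ext a b
        fin_cases a <;> fin_cases b <;>
          simp [sig, pX, pY, pZ, ez, Matrix.mul_apply, Fin.sum_univ_two] <;>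
          first
          | ring1
          | linear_combination -hc + (n 1 : ℂ) ^ 2 * hI
          | linear_combination hc - (n 1 : ℂ) ^ 2 * hI
      rw [e1, Matrix.smul_mul, Matrix.smul_mul, Matrix.mul_smul, e2, smul_smul, smul_smul]
      have : (r : ℂ)⁻¹ * (r : ℂ)⁻¹ * (r : ℂ) ^ 2 = 1 := by
        field_simp
      rw [this, one_smul]

/-- the data of singlets of six qubits do not depend on the direction -/
theorem singlet_data {n : Fin 3 → ℝ} (h : ∑ k, n k ^ 2 = 1) {φ χ : Str 6 → ℂ} (hφ : Singlet φ)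
    (hχ : Singlet χ) (I : Finset (Fin 6)) :
    star φ ⬝ᵥ (obs n I *ᵥ χ) = star φ ⬝ᵥ (obs ez I *ᵥ χ) := by
  obtain ⟨m, hm, hmn⟩ := exists_refl h
  have h1 : obs m univ * obs ez I * obs m univ = (obs n I : Op 6) := by
    unfold obs
    rw [tens_mul, tens_mul]
    congr 1
    funext i
    by_cases hi : i ∈ I
    · simp only [Finset.mem_univ, if_true, if_pos hi, hmn]
    · simp only [Finset.mem_univ, if_true, if_neg hi, mul_one, sig_sq hm]
  rw [← h1, ← Matrix.mulVec_mulVec, ← Matrix.mulVec_mulVec, refl_singlet hm hχ,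
    Matrix.dotProduct_mulVec]
  have h2 : star φ ᵥ* obs m univ = star (obs m univ *ᵥ φ) := by
    rw [Matrix.star_mulVec, obs_conj]
  rw [h2, refl_singlet hm hφ, star_neg, Matrix.mulVec_neg, neg_dotProduct, dotProduct_neg,
    neg_neg]

end Pool.Agent.Q204.UC
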