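import Mathlib.Tactic

namespace Pool.Agent.Q204.UC

theorem triple : ∀ S : Finset (Fin 6), 3 ≤ S.card →
    ∃ t ∈ ([(0, 1, 2), (0, 1, 3), (0, 1, 4), (0, 1, 5), (0, 2, 3), (0, 2, 4), (0, 2, 5), (0, 3, 4), (0, 3, 5), (0, 4, 5), (1, 2, 3), (1, 2, 4), (1, 2, 5), (1, 3, 4), (1, 3, 5), (1, 4, 5), (2, 3, 4), (2, 3, 5), (2, 4, 5), (3, 4, 5)] : List (Fin 6 × Fin 6 × Fin 6)), t.1 ∈ S ∧ t.2.1 ∈ S ∧ t.2.2 ∈ S := by
  decide +kernel

/-- the combinatorial step -/
theorem zeros (g : Fin 6 → ℝ) (h : ∀ β, ∃ α α', α ≠ β ∧ α' ≠ β ∧ α ≠ α' ∧ g α = 0 ∧ g α' = 0)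
    (h0 : ∑ α, g α = 0)
    (hp : ∀ y : Fin 6 → ℝ, ∑ α, y α = 0 → -4 * y 0 + y 3 + y 4 + 2 * y 5 = 0 →
      ∑ α, g α * y α ^ 2 ≤ 0) : ∀ α, g α = 0 := by
  classical
  have hq : ∀ a b c d e f : ℝ, a + b + c + d + e + f = 0 → -4 * a + d + e + 2 * f = 0 →
      g 0 * a ^ 2 + g 1 * b ^ 2 + g 2 * c ^ 2 + g 3 * d ^ 2 + g 4 * e ^ 2 + g 5 * f ^ 2 ≤ 0 := by
    intro a b c d e f h1 h2
    have := hp ![a, b, c, d, e, f] (by simp [Fin.sum_univ_succ]; linarith) (by simpa using h2)
    simp [Fin.sum_univ_succ] at this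
    linarith
  have h0' : g 0 + g 1 + g 2 + g 3 + g 4 + g 5 = 0 := by
    simp [Fin.sum_univ_succ] at h0
    linarith
  have hS : 3 ≤ (Finset.univ.filter fun α => g α = 0).card := by
    obtain ⟨a, b, -, -, hab, ha, hb⟩ := h 0
    obtain ⟨c, d, hca, hda, hcd, hc, hd⟩ := h a
    obtain ⟨e, hea, heb, he⟩ : ∃ e, e ≠ a ∧ e ≠ b ∧ g e = 0 := by
      by_cases h1 : c = b
      · refine ⟨d, hda, ?_, hd⟩
        rw [← h1]
        exact hcd.symm
      · exact ⟨c, hca, h1, hc⟩
    have : ({a, b, e} : Finset (Fin 6)) ⊆ Finset.univ.filter fun α => g α = 0 := by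
      intro x hx
      simp only [Finset.mem_insert, Finset.mem_singleton] at hx
      simp only [Finset.mem_filter, Finset.mem_univ, true_and]
      rcases hx with rfl | rfl | rfl <;> assumption
    refine le_trans ?_ (Finset.card_le_card this)
    rw [Finset.card_eq_three.2 ⟨a, b, e, hab, hea.symm, heb.symm, rfl⟩]
  obtain ⟨t, ht, z1, z2, z3⟩ := triple _ hS
  simp only [Finset.mem_filter, Finset.mem_univ, true_and] at z1 z2 z3
  simp only [List.mem_cons, List.not_mem_nil, or_false] at ht
  have hfin : g 0 = 0 ∧ g 1 = 0 ∧ g 2 = 0 ∧ g 3 = 0 ∧ g 4 = 0 ∧ g 5 = 0 := by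
    clear hS hp h
    rcases ht with rfl | rfl | rfl | rfl | rfl | rfl | rfl | rfl | rfl | rfl | rfl | rfl | rfl | rfl | rfl | rfl | rfl | rfl | rfl | rfl
    · have a0 := hq (0) (0) (0) (-1) (1) (0) (by norm_num) (by norm_num); have a1 := hq (0) (-1) (0) (2) (0) (-1) (by norm_num) (by norm_num); have a2 := hq (1) (-1) (-1) (0) (-2) (3) (by norm_num) (by norm_num); exact ⟨by linarith, by linarith, by linarith, by linarith, by linarith, by linarith⟩
    · have a0 := hq (0) (-1) (1) (0) (0) (0) (by norm_num) (by norm_num); have a1 := hq (0) (0) (0) (-1) (1) (0) (by norm_num) (by norm_num); have a2 := hq (0) (-1) (0) (2) (0) (-1) (by norm_num) (by norm_num); exact ⟨by linarith, by linarith, by linarith, by linarith, by linarith, by linarith⟩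
    · have a0 := hq (0) (-1) (1) (0) (0) (0) (by norm_num) (by norm_num); have a1 := hq (0) (0) (0) (-1) (1) (0) (by norm_num) (by norm_num); have a2 := hq (0) (-1) (0) (0) (2) (-1) (by norm_num) (by norm_num); exact ⟨by linarith, by linarith, by linarith, by linarith, by linarith, by linarith⟩
    · have a0 := hq (0) (-1) (1) (0) (0) (0) (by norm_num) (by norm_num); have a1 := hq (0) (-1) (0) (2) (0) (-1) (by norm_num) (by norm_num); have a2 := hq (0) (-1) (0) (0) (2) (-1) (by norm_num) (by norm_num); exact ⟨by linarith, by linarith, by linarith, by linarith, by linarith, by linarith⟩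
    · have a0 := hq (0) (-1) (1) (0) (0) (0) (by norm_num) (by norm_num); have a1 := hq (0) (0) (0) (-1) (1) (0) (by norm_num) (by norm_num); have a2 := hq (0) (0) (-1) (2) (0) (-1) (by norm_num) (by norm_num); exact ⟨by linarith, by linarith, by linarith, by linarith, by linarith, by linarith⟩
    · have a0 := hq (0) (-1) (1) (0) (0) (0) (by norm_num) (by norm_num); have a1 := hq (0) (0) (0) (-1) (1) (0) (by norm_num) (by norm_num); have a2 := hq (0) (0) (-1) (0) (2) (-1) (by norm_num) (by norm_num); exact ⟨by linarith, by linarith, by linarith, by linarith, by linarith, by linarith⟩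
    · have a0 := hq (0) (-1) (1) (0) (0) (0) (by norm_num) (by norm_num); have a1 := hq (0) (-1) (0) (2) (0) (-1) (by norm_num) (by norm_num); have a2 := hq (0) (-1) (0) (0) (2) (-1) (by norm_num) (by norm_num); exact ⟨by linarith, by linarith, by linarith, by linarith, by linarith, by linarith⟩
    · have a0 := hq (0) (-1) (1) (0) (0) (0) (by norm_num) (by norm_num); have a1 := hq (0) (0) (-1) (1) (1) (-1) (by norm_num) (by norm_num); have a2 := hq (0) (-1) (0) (1) (1) (-1) (by norm_num) (by norm_num); exact ⟨by linarith, by linarith, by linarith, by linarith, by linarith, by linarith⟩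
    · have a0 := hq (0) (-1) (1) (0) (0) (0) (by norm_num) (by norm_num); have a1 := hq (0) (0) (-1) (1) (1) (-1) (by norm_num) (by norm_num); have a2 := hq (0) (-1) (0) (1) (1) (-1) (by norm_num) (by norm_num); exact ⟨by linarith, by linarith, by linarith, by linarith, by linarith, by linarith⟩
    · have a0 := hq (0) (-1) (1) (0) (0) (0) (by norm_num) (by norm_num); have a1 := hq (0) (0) (-1) (1) (1) (-1) (by norm_num) (by norm_num); have a2 := hq (0) (-1) (0) (1) (1) (-1) (by norm_num) (by norm_num); exact ⟨by linarith, by linarith, by linarith, by linarith, by linarith, by linarith⟩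
    · have a0 := hq (0) (0) (0) (-1) (1) (0) (by norm_num) (by norm_num); have a1 := hq (0) (-1) (0) (2) (0) (-1) (by norm_num) (by norm_num); have a2 := hq (1) (-3) (-2) (4) (0) (0) (by norm_num) (by norm_num); exact ⟨by linarith, by linarith, by linarith, by linarith, by linarith, by linarith⟩
    · have a0 := hq (0) (0) (0) (-1) (1) (0) (by norm_num) (by norm_num); have a1 := hq (0) (-1) (0) (0) (2) (-1) (by norm_num) (by norm_num); have a2 := hq (1) (-2) (-3) (0) (4) (0) (by norm_num) (by norm_num); exact ⟨by linarith, by linarith, by linarith, by linarith, by linarith, by linarith⟩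
    · have a0 := hq (0) (-1) (0) (2) (0) (-1) (by norm_num) (by norm_num); have a1 := hq (0) (-1) (0) (0) (2) (-1) (by norm_num) (by norm_num); have a2 := hq (1) (-2) (-1) (0) (0) (2) (by norm_num) (by norm_num); exact ⟨by linarith, by linarith, by linarith, by linarith, by linarith, by linarith⟩
    · have a0 := hq (0) (-1) (1) (0) (0) (0) (by norm_num) (by norm_num); have a1 := hq (0) (-1) (0) (1) (1) (-1) (by norm_num) (by norm_num); have a2 := hq (1) (-5) (0) (2) (2) (0) (by norm_num) (by norm_num); exact ⟨by linarith, by linarith, by linarith, by linarith, by linarith, by linarith⟩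
    · have a0 := hq (0) (-1) (1) (0) (0) (0) (by norm_num) (by norm_num); have a1 := hq (0) (0) (0) (-1) (1) (0) (by norm_num) (by norm_num); have a2 := hq (1) (-3) (0) (0) (0) (2) (by norm_num) (by norm_num); exact ⟨by linarith, by linarith, by linarith, by linarith, by linarith, by linarith⟩
    · have a0 := hq (0) (-1) (1) (0) (0) (0) (by norm_num) (by norm_num); have a1 := hq (0) (0) (0) (-1) (1) (0) (by norm_num) (by norm_num); have a2 := hq (1) (-3) (0) (0) (0) (2) (by norm_num) (by norm_num); exact ⟨by linarith, by linarith, by linarith, by linarith, by linarith, by linarith⟩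
    · have a0 := hq (0) (-1) (1) (0) (0) (0) (by norm_num) (by norm_num); have a1 := hq (1) (0) (-3) (0) (0) (2) (by norm_num) (by norm_num); have a2 := hq (1) (-1) (-4) (2) (2) (0) (by norm_num) (by norm_num); exact ⟨by linarith, by linarith, by linarith, by linarith, by linarith, by linarith⟩
    · have a0 := hq (0) (-1) (1) (0) (0) (0) (by norm_num) (by norm_num); have a1 := hq (0) (0) (0) (-1) (1) (0) (by norm_num) (by norm_num); have a2 := hq (1) (0) (-3) (0) (0) (2) (by norm_num) (by norm_num); exact ⟨by linarith, by linarith, by linarith, by linarith, by linarith, by linarith⟩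
    · have a0 := hq (0) (-1) (1) (0) (0) (0) (by norm_num) (by norm_num); have a1 := hq (0) (0) (0) (-1) (1) (0) (by norm_num) (by norm_num); have a2 := hq (1) (0) (-3) (0) (0) (2) (by norm_num) (by norm_num); exact ⟨by linarith, by linarith, by linarith, by linarith, by linarith, by linarith⟩
    · have a0 := hq (0) (-1) (1) (0) (0) (0) (by norm_num) (by norm_num); have a1 := hq (1) (-3) (0) (0) (0) (2) (by norm_num) (by norm_num); have a2 := hq (1) (0) (-1) (-2) (-2) (4) (by norm_num) (by norm_num); exact ⟨by linarith, by linarith, by linarith, by linarith, by linarith, by linarith⟩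
  obtain ⟨r0, r1, r2, r3, r4, r5⟩ := hfin
  intro α
  fin_cases α <;> assumption

end Pool.Agent.Q204.UC
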