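import Pool.Agent.Q204.UC.Shape
import Mathlib.LinearAlgebra.FiniteDimensional.Lemmas

/-!
# A pure state that is uniformly certifiable among the pure states only
-/

namespace Pool.Agent.Q204.UC

open Finset Matrix
open scoped ComplexOrder

/-- the coefficients of the target -/
def cR : Fin 6 → ℝ := ![-4, 0, 0, 1, 1, 2]

theorem cR_sum : ∑ α, cR α = 0 := by
  simp [cR, Fin.sum_univ_succ]
  norm_num

/-- the normalised coefficients of the target -/
noncomputable def x0 (α : Fin 6) : ℂ := ((cR α / √528 : ℝ) : ℂ)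

/-- the target -/
noncomputable def ψ0 : Str 6 → ℂ := comb x0

theorem x0_mul (α β : Fin 6) : star (x0 α) * x0 β = ((cR α * cR β / 528 : ℝ) : ℂ) := by
  unfold x0
  rw [Complex.star_def, Complex.conj_ofReal, ← Complex.ofReal_mul]
  congr 1
  rw [div_mul_div_comm, Real.mul_self_sqrt (by norm_num)]

/-- a common zero of five linear functionals on `ℝ⁶` -/
theorem exists_w (a b : Fin 6 → ℝ) (β : Fin 6) : ∃ w : Fin 6 → ℝ, w ≠ 0 ∧ w β = 0 ∧
    ∑ γ, w γ = 0 ∧ ∑ γ, a γ * w γ = 0 ∧ ∑ γ, b γ * w γ = 0 ∧ ∑ γ, cR γ * w γ = 0 := by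
  let M : Matrix (Fin 5) (Fin 6) ℝ := ![Pi.single β 1, fun _ => 1, a, b, cR]
  have h : LinearMap.ker M.mulVecLin ≠ ⊥ := by
    apply LinearMap.ker_ne_bot_of_finrank_lt
    simp
  obtain ⟨w, hw, hw0⟩ := (Submodule.ne_bot_iff _).1 h
  have h1 : M *ᵥ w = 0 := hw
  refine ⟨w, hw0, ?_, ?_, ?_, ?_, ?_⟩
  · have := congrFun h1 0
    simpa [M, Matrix.mulVec, dotProduct, Pi.single_apply] using this
  · have := congrFun h1 1
    simpa [M, Matrix.mulVec, dotProduct] using this
  · have := congrFun h1 2
    simpa [M, Matrix.mulVec, dotProduct] using this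
  · have := congrFun h1 3
    simpa [M, Matrix.mulVec, dotProduct] using this
  · have := congrFun h1 4
    simpa [M, Matrix.mulVec, dotProduct] using this

theorem two_nonzero (w : Fin 6 → ℝ) (h : w ≠ 0) (hs : ∑ γ, w γ = 0) :
    ∃ α α', α ≠ α' ∧ w α ≠ 0 ∧ w α' ≠ 0 := by
  obtain ⟨α, hα⟩ := Function.ne_iff.1 h
  by_contra hcon
  push Not at hcon
  have h1 : ∀ γ, γ ≠ α → w γ = 0 := fun γ hγ => hcon α γ hγ.symm hα
  rw [Finset.sum_eq_single α (fun γ _ hγ => h1 γ hγ) (by simp)] at hs
  exact hα hs

/-- the difference of the Gram matrices -/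
noncomputable def Eg (x : Fin 6 → ℂ) (α β : Fin 6) : ℝ := (star (x α) * x β).re - cR α * cR β / 528

theorem Eg_zero (x : Fin 6 → ℂ) (hx : ∑ α, x α = 0)
    (hm : ∀ k, data (proj (comb x)) ez {pI k, pJ k} = data (proj ψ0) ez {pI k, pJ k})
    (he : data (proj (comb x)) ez ∅ = data (proj ψ0) ez ∅) (α β : Fin 6) : Eg x α β = 0 := by
  have hs : ∀ α β, Eg x α β = Eg x β α := by
    intro α β
    unfold Eg
    simp [Complex.mul_re]
    ring
  have hr : ∀ α, ∑ β, Eg x α β = 0 := by
    intro α
    unfold Eg
    rw [Finset.sum_sub_distrib, ← Complex.re_sum, ← Finset.mul_sum, hx, ← Finset.sum_div,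
      ← Finset.mul_sum, cR_sum]
    simp
  have hw : ∀ m : Fin 6 → Fin 6 → ℝ,
      ∑ α, ∑ β, star (x α) * x β * ((m α β : ℝ) : ℂ) =
        ∑ α, ∑ β, star (x0 α) * x0 β * ((m α β : ℝ) : ℂ) → ∑ α, ∑ β, Eg x α β * m α β = 0 := by
    intro m h
    have h1 := congrArg Complex.re h
    simp only [Complex.re_sum, Complex.re_mul_ofReal, x0_mul, Complex.ofReal_re] at h1
    unfold Eg
    simp only [sub_mul, Finset.sum_sub_distrib]
    linarith
  have ht : ∑ α, Eg x α α = 0 := by
    unfold ψ0 at he
    rw [data_empty, data_empty] at he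
    have h1 := hw (fun α β => if α = β then 20 else -4) (by
      have hc : ∀ α β : Fin 6, (((if α = β then 20 else -4 : ℝ) : ℝ) : ℂ) =
          if α = β then 20 else -4 := by
        intro α β
        split_ifs <;> simp
      simp only [hc]
      exact he)
    have h2 : ∀ α β, Eg x α β * (if α = β then (20 : ℝ) else -4) =
        -4 * Eg x α β + 24 * (if α = β then Eg x α β else 0) := by
      intro α β
      split_ifs <;> ring
    simp only [h2, Finset.sum_add_distrib, ← Finset.mul_sum, hr, Finset.sum_ite_eq,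
      Finset.mem_univ, if_true] at h1
    simp at h1
    exact h1
  have hmm : ∀ k : Fin 15, ∑ α, Eg x α (pP k α) = 0 := by
    intro k
    have h0 := hm k
    unfold ψ0 at h0
    rw [data_pair, data_pair] at h0
    have h1 := hw (fun α β => if α = β then -4 else if β = pP k α then -12 else 4) (by
      have hc : ∀ α β : Fin 6,
          (((if α = β then -4 else if β = pP k α then -12 else 4 : ℝ) : ℝ) : ℂ) =
          if α = β then -4 else if β = pP k α then -12 else 4 := by
        intro α β
        split_ifs <;> simp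
      simp only [hc]
      exact h0)
    have hP : ∀ (k : Fin 15) (α : Fin 6), pP k α ≠ α := by decide +kernel
    have h2 : ∀ α β, Eg x α β *
        (if α = β then (-4 : ℝ) else if β = pP k α then -12 else 4) =
        4 * Eg x α β - 8 * (if α = β then Eg x α β else 0) -
          16 * (if β = pP k α then Eg x α β else 0) := by
      intro α β
      by_cases h3 : α = β
      · rw [if_pos h3, if_pos h3, if_neg (by rw [← h3]; exact (hP k α).symm)]
        ring
      · rw [if_neg h3, if_neg h3]
        split_ifs <;> ring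
    simp only [h2, Finset.sum_sub_distrib, ← Finset.mul_sum, hr, Finset.sum_ite_eq,
      Finset.sum_ite_eq', Finset.mem_univ, if_true, ht] at h1
    simp at h1
    exact h1
  have hsh := shape (Eg x) hs hr ht hmm
  set g : Fin 6 → ℝ := fun α => -Eg x α α / 4 with hg
  have hE : ∀ α β, Eg x α β = g α + g β - (if α = β then 6 * g α else 0) := by
    intro α β
    by_cases h : α = β
    · subst h
      simp only [hg, if_true]
      ring
    · rw [hsh α β h, if_neg h]
      simp only [hg]
      ring
  have hg0 : ∑ α, g α = 0 := by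
    simp only [hg]
    rw [← Finset.sum_div, Finset.sum_neg_distrib, ht]
    simp
  have hz : ∀ α, g α = 0 := by
    apply zeros g _ hg0
    · intro y hy hcy
      have hcy' : ∑ α, cR α * y α = 0 := by
        simp [cR, Fin.sum_univ_succ]
        linarith
      have h1 : ∑ α, ∑ β, Eg x α β * (y α * y β) = Complex.normSq (∑ α, x α * (y α : ℂ)) := by
        have h2 : ∑ α, ∑ β, cR α * cR β / 528 * (y α * y β) = 0 := by
          have : ∑ α, ∑ β, cR α * cR β / 528 * (y α * y β) =
              (∑ α, cR α * y α) * (∑ β, cR β * y β) / 528 := by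
            rw [Finset.sum_mul_sum, Finset.sum_div]
            refine Finset.sum_congr rfl fun α _ => ?_
            rw [Finset.sum_div]
            exact Finset.sum_congr rfl fun β _ => by ring
          rw [this, hcy']
          simp
        have h3 : ((Complex.normSq (∑ α, x α * (y α : ℂ)) : ℝ) : ℂ) =
            ∑ α, ∑ β, star (x α) * x β * ((y α * y β : ℝ) : ℂ) := by
          rw [Complex.normSq_eq_conj_mul_self, map_sum, Finset.sum_mul_sum]
          refine Finset.sum_congr rfl fun α _ => Finset.sum_congr rfl fun β _ => ?_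
          rw [map_mul, Complex.conj_ofReal, Complex.star_def]
          push_cast
          ring
        have h4 := congrArg Complex.re h3
        simp only [Complex.ofReal_re, Complex.re_sum, Complex.re_mul_ofReal] at h4
        rw [h4]
        unfold Eg
        simp only [sub_mul, Finset.sum_sub_distrib]
        rw [h2, sub_zero]
      have h5 : ∑ α, ∑ β, Eg x α β * (y α * y β) = -6 * ∑ α, g α * y α ^ 2 := by
        have h6 : ∀ α, ∑ β, Eg x α β * (y α * y β) =
            g α * y α * (∑ β, y β) + y α * (∑ β, g β * y β) - 6 * (g α * y α ^ 2) := by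
          intro α
          have h7 : ∀ β, Eg x α β * (y α * y β) =
              g α * y α * y β + y α * (g β * y β) -
                (if α = β then 6 * g α * y α * y β else 0) := by
            intro β
            rw [hE]
            split_ifs <;> ring
          simp only [h7, Finset.sum_sub_distrib, Finset.sum_add_distrib, ← Finset.mul_sum,
            Finset.sum_ite_eq, Finset.mem_univ, if_true]
          ring
        simp only [h6, hy, mul_zero, zero_add, Finset.sum_sub_distrib]
        rw [← Finset.sum_mul, hy, ← Finset.mul_sum]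
        ring
      have h8 := Complex.normSq_nonneg (∑ α, x α * (y α : ℂ))
      linarith
    · intro β
      obtain ⟨w, hw0, hwβ, hws, hwa, hwb, hwc⟩ :=
        exists_w (fun α => (x α).re) (fun α => (x α).im) β
      have h1 : ∑ γ, x γ * (w γ : ℂ) = 0 := by
        apply Complex.ext
        · simp only [Complex.re_sum, Complex.re_mul_ofReal]
          exact hwa
        · simp only [Complex.im_sum, Complex.im_mul_ofReal]
          exact hwb
      have h2 : ∀ α, ∑ γ, Eg x α γ * w γ = 0 := by
        intro α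
        have h3 : ∑ γ, (star (x α) * x γ).re * w γ = 0 := by
          have h4 : ∑ γ, star (x α) * x γ * (w γ : ℂ) = 0 := by
            simp only [mul_assoc]
            rw [← Finset.mul_sum, h1, mul_zero]
          have h5 := congrArg Complex.re h4
          simp only [Complex.re_sum, Complex.re_mul_ofReal] at h5
          exact h5
        have h6 : ∑ γ, cR α * cR γ / 528 * w γ = 0 := by
          have : ∑ γ, cR α * cR γ / 528 * w γ = cR α / 528 * ∑ γ, cR γ * w γ := by
            rw [Finset.mul_sum]
            exact Finset.sum_congr rfl fun γ _ => by ring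
          rw [this, hwc, mul_zero]
        unfold Eg
        simp only [sub_mul, Finset.sum_sub_distrib]
        rw [h3, h6, sub_zero]
      have h3 : ∀ α, ∑ γ, g γ * w γ = 6 * (g α * w α) := by
        intro α
        have h4 := h2 α
        have h7 : ∀ γ, Eg x α γ * w γ =
            g α * w γ + g γ * w γ - (if α = γ then 6 * g α * w γ else 0) := by
          intro γ
          rw [hE]
          split_ifs <;> ring
        simp only [h7, Finset.sum_sub_distrib, Finset.sum_add_distrib, ← Finset.mul_sum,
            Finset.sum_ite_eq, Finset.mem_univ, if_true, hws] at h4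
        linarith
      have h4 : ∀ α, g α * w α = 0 := by
        intro α
        have h5 := h3 α
        rw [h3 β, hwβ] at h5
        linarith
      obtain ⟨α, α', hne, hα, hα'⟩ := two_nonzero w hw0 hws
      refine ⟨α, α', ?_, ?_, hne, (mul_eq_zero.1 (h4 α)).resolve_right hα,
        (mul_eq_zero.1 (h4 α')).resolve_right hα'⟩
      · rintro rfl
        exact hα hwβ
      · rintro rfl
        exact hα' hwβ
  rw [hE, hz, hz]
  simp

theorem proj_comb (x : Fin 6 → ℂ) (s t : Str 6) :
    proj (comb x) s t = ∑ α, ∑ β, star (x β) * x α * (vv α s * vv β t) := by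
  unfold proj
  rw [Matrix.vecMulVec_apply, Pi.star_apply]
  unfold comb
  rw [star_sum, Finset.sum_mul_sum]
  refine Finset.sum_congr rfl fun α _ => Finset.sum_congr rfl fun β _ => ?_
  rw [star_mul', star_vv]
  ring

theorem pure_unique {φ : Str 6 → ℂ} (h : SameData (proj φ) (proj ψ0)) : proj φ = proj ψ0 := by
  have hφ : Singlet φ := singlet_of_sameData h (comb_singlet x0)
  obtain ⟨x, hxd⟩ : ∃ x, x = coef φ := ⟨_, rfl⟩
  have hφx : φ = comb x := by rw [hxd]; exact expand hφ
  have hx : ∑ α, x α = 0 := by rw [hxd]; exact coef_sum φ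
  rw [hφx] at h ⊢
  have hE := Eg_zero x hx (fun k => h ez ez_unit _) (h ez ez_unit _)
  have hre : ∀ α β, (star (x α) * x β).re = cR α * cR β / 528 := by
    intro α β
    have := hE α β
    unfold Eg at this
    linarith
  have hns : ∀ α, Complex.normSq (x α) = cR α ^ 2 / 528 := by
    intro α
    have h1 := hre α α
    rw [Complex.star_def, ← Complex.normSq_eq_conj_mul_self, Complex.ofReal_re] at h1
    rw [h1, sq]
  have hz : ∀ α, star (x 0) * x α = ((cR 0 * cR α / 528 : ℝ) : ℂ) := by
    intro α
    apply Complex.ext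
    · rw [hre, Complex.ofReal_re]
    · rw [Complex.ofReal_im]
      have h1 : Complex.normSq (star (x 0) * x α) = (cR 0 * cR α / 528) ^ 2 := by
        rw [Complex.normSq_mul, Complex.star_def, Complex.normSq_conj, hns, hns]
        ring
      rw [Complex.normSq_apply, hre] at h1
      have h2 : (star (x 0) * x α).im * (star (x 0) * x α).im = 0 := by linarith
      exact mul_self_eq_zero.1 h2
  have hall : ∀ α β, star (x α) * x β = ((cR α * cR β / 528 : ℝ) : ℂ) := by
    intro α β
    have h1 : star (x α) * x 0 = ((cR 0 * cR α / 528 : ℝ) : ℂ) := by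
      have := congrArg star (hz α)
      rw [star_mul', star_star, Complex.star_def, Complex.conj_ofReal] at this
      rw [mul_comm, Complex.star_def]
      exact this
    have h2 : star (x α) * x β * (star (x 0) * x 0) =
        ((cR 0 * cR α / 528 : ℝ) : ℂ) * ((cR 0 * cR β / 528 : ℝ) : ℂ) := by
      rw [← h1, ← hz β]
      ring
    rw [hz 0] at h2
    have h3 : cR 0 = -4 := by simp [cR]
    rw [h3] at h2
    have h4 : (((-4 * -4 / 528 : ℝ)) : ℂ) ≠ 0 := by
      rw [Ne, Complex.ofReal_eq_zero]
      norm_num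
    apply mul_right_cancel₀ h4
    rw [h2]
    push_cast
    ring
  ext s t
  unfold ψ0
  rw [proj_comb, proj_comb]
  refine Finset.sum_congr rfl fun α _ => Finset.sum_congr rfl fun β _ => ?_
  rw [hall, x0_mul]

/-! ### the mixed state -/

/-- the coefficients of the perturbation -/
def tR : Fin 6 → ℝ := ![-5, 1, 1, 1, 1, 1]

theorem tR_sum : ∑ α, tR α = 0 := by
  simp [tR, Fin.sum_univ_succ]
  norm_num

/-- the mixed state -/
noncomputable def ρ0 : Op 6 := proj ψ0 + ∑ α, ((tR α / 528 : ℝ) : ℂ) • proj (vv α)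

theorem data_vv (α : Fin 6) {n : Fin 3 → ℝ} (h : ∑ k, n k ^ 2 = 1) (I : Finset (Fin 6)) :
    data (proj (vv α)) n I =
      ∑ s : Str 6, (∏ i ∈ I, sg (s i)) * (if wt s = 3 then 1 else 0) := by
  have h1 : data (proj (vv α)) n I = data (proj (vv α)) ez I := by
    rw [data_proj, data_proj]
    exact singlet_data h (vv_singlet α) (vv_singlet α) I
  rw [h1, data_ez]
  refine Finset.sum_congr rfl fun s _ => ?_
  congr 1
  rw [star_vv]
  unfold vv
  exact_mod_cast vi_sq α s

theorem ρ0_data : SameData ρ0 (proj ψ0) := by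
  intro n hn I
  have h1 : data ρ0 n I = data (proj ψ0) n I +
      ∑ α, ((tR α / 528 : ℝ) : ℂ) * data (proj (vv α)) n I := by
    unfold data ρ0
    rw [add_mul, Matrix.trace_add, Finset.sum_mul, Matrix.trace_sum]
    congr 1
    refine Finset.sum_congr rfl fun α _ => ?_
    rw [Matrix.smul_mul, Matrix.trace_smul, smul_eq_mul]
  rw [h1]
  simp only [data_vv _ hn]
  rw [← Finset.sum_mul]
  have h2 : ∑ α, ((tR α / 528 : ℝ) : ℂ) = 0 := by
    rw [← Complex.ofReal_sum, ← Finset.sum_div, tR_sum]
    simp
  rw [h2, zero_mul, add_zero]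

/-- the vectors in the spectral-like decomposition of `ρ0` -/
def lv : Fin 5 → Fin 6 → ℝ := ![![0, 12, 11, 15, 15, 19], ![0, 0, 23, 15, 15, 19],
  ![0, 0, 0, 33, 10, 5], ![0, 0, 0, 0, 43, 5], ![0, 0, 0, 0, 0, 1]]

/-- the weights -/
noncomputable def lw : Fin 5 → ℝ := ![1 / 12, 1 / 276, 1 / 759, 1 / 1419, 24 / 43]

theorem vv_zero (s : Str 6) : vv 0 s = -(vv 1 s + vv 2 s + vv 3 s + vv 4 s + vv 5 s) := by
  have h : ∑ α, vv α s = 0 := by
    unfold vv
    exact_mod_cast vi_sum s
  rw [Fin.sum_univ_six] at h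
  linear_combination h

theorem ψ0_apply (s t : Str 6) : proj ψ0 s t =
    (4 * vv 1 s + 4 * vv 2 s + 5 * vv 3 s + 5 * vv 4 s + 6 * vv 5 s) *
    (4 * vv 1 t + 4 * vv 2 t + 5 * vv 3 t + 5 * vv 4 t + 6 * vv 5 t) / 528 := by
  unfold ψ0
  rw [proj_comb]
  simp only [x0_mul]
  have : ∑ α, ∑ β, ((cR β * cR α / 528 : ℝ) : ℂ) * (vv α s * vv β t) =
      (∑ α, (cR α : ℂ) * vv α s) * (∑ β, (cR β : ℂ) * vv β t) / 528 := by
    rw [Finset.sum_mul_sum, Finset.sum_div]
    refine Finset.sum_congr rfl fun α _ => ?_
    rw [Finset.sum_div]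
    refine Finset.sum_congr rfl fun β _ => ?_
    push_cast
    ring
  rw [this, Fin.sum_univ_six, Fin.sum_univ_six, vv_zero s, vv_zero t]
  simp [cR]
  ring

theorem proj_vv (α : Fin 6) (s t : Str 6) : proj (vv α) s t = vv α s * vv α t := by
  unfold proj
  rw [Matrix.vecMulVec_apply, Pi.star_apply, star_vv]

theorem ρ0_eq : ρ0 = ∑ k, ((lw k / 528 : ℝ) : ℂ) • proj (comb fun α => (lv k α : ℂ)) := by
  have hreal : ∀ (k : Fin 5) (s : Str 6), star (comb (fun α => (lv k α : ℂ)) s) =
      comb (fun α => (lv k α : ℂ)) s := by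
    intro k s
    unfold comb
    rw [star_sum]
    refine Finset.sum_congr rfl fun α _ => ?_
    rw [star_mul', star_vv, Complex.star_def, Complex.conj_ofReal]
  ext s t
  unfold ρ0
  rw [Matrix.add_apply, ψ0_apply, Matrix.sum_apply, Matrix.sum_apply]
  simp only [Matrix.smul_apply, smul_eq_mul, proj_vv]
  have h2 : ∀ k : Fin 5, proj (comb fun α => (lv k α : ℂ)) s t =
      comb (fun α => (lv k α : ℂ)) s * comb (fun α => (lv k α : ℂ)) t := by
    intro k
    unfold proj
    rw [Matrix.vecMulVec_apply, Pi.star_apply, hreal]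
  simp only [h2]
  unfold comb
  rw [Fin.sum_univ_six, Fin.sum_univ_five, vv_zero s, vv_zero t]
  simp only [Fin.sum_univ_six]
  simp [lv, lw, tR]
  ring

theorem ρ0_psd : ρ0.PosSemidef := by
  rw [ρ0_eq]
  apply Matrix.posSemidef_sum
  intro k _
  apply Matrix.PosSemidef.smul
  · exact Matrix.posSemidef_vecMulVec_self_star _
  · rw [Complex.zero_le_real]
    fin_cases k <;> simp [lw] <;> norm_num

theorem trace_eq_data {N : ℕ} (ρ : Op N) : ρ.trace = data ρ ez ∅ := by
  unfold data obs
  have : (tens fun i => if i ∈ (∅ : Finset (Fin N)) then sig ez else 1) = (1 : Op N) := by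
    simp only [Finset.notMem_empty, if_false]
    exact tens_one
  rw [this, mul_one]

theorem trace_proj {N : ℕ} (φ : Str N → ℂ) : (proj φ).trace = ((∑ s, ‖φ s‖ ^ 2 : ℝ) : ℂ) := by
  unfold proj
  rw [Matrix.trace_vecMulVec]
  unfold dotProduct
  push_cast
  refine Finset.sum_congr rfl fun s _ => ?_
  rw [Pi.star_apply, Complex.star_def, Complex.mul_conj']

theorem ψ0_unit : UnitVec ψ0 := by
  have h1 : (proj ψ0).trace = 1 := by
    rw [trace_eq_data]
    unfold ψ0
    rw [data_empty]
    simp only [x0_mul]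
    rw [← Complex.ofReal_one]
    simp [Fin.sum_univ_six, cR]
    norm_num
  rw [trace_proj] at h1
  unfold UnitVec
  exact_mod_cast h1

theorem ρ0_state : IsState ρ0 := by
  refine ⟨ρ0_psd, ?_⟩
  rw [trace_eq_data, ρ0_data ez ez_unit, ← trace_eq_data, trace_proj]
  have := ψ0_unit
  unfold UnitVec at this
  rw [this]
  simp

theorem ρ0_ne : ρ0 ≠ proj ψ0 := by
  intro h
  have h1 : ∃ s t : Str 6, -5 * (vi 0 s * vi 0 t) + vi 1 s * vi 1 t + vi 2 s * vi 2 t +
      vi 3 s * vi 3 t + vi 4 s * vi 4 t + vi 5 s * vi 5 t ≠ 0 := by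
    refine ⟨![1, 1, 1, 0, 0, 0], ![1, 1, 0, 1, 0, 0], ?_⟩
    decide +kernel
  obtain ⟨s, t, hst⟩ := h1
  have h2 := congrFun (congrFun h s) t
  unfold ρ0 at h2
  rw [Matrix.add_apply, Matrix.sum_apply, add_eq_left] at h2
  simp only [Matrix.smul_apply, smul_eq_mul, proj_vv] at h2
  rw [Fin.sum_univ_six] at h2
  simp [tR] at h2
  apply hst
  have h3 : (((-5 * (vi 0 s * vi 0 t) + vi 1 s * vi 1 t + vi 2 s * vi 2 t +
      vi 3 s * vi 3 t + vi 4 s * vi 4 t + vi 5 s * vi 5 t : ℤ)) : ℂ) = 0 := by
    push_cast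
    unfold vv at h2
    linear_combination 528 * h2
  exact_mod_cast h3

theorem pure_certifiable : Certifiable (pureStates 6) ψ0 := by
  rintro ρ ⟨φ, -, rfl⟩ h
  exact pure_unique h

theorem not_certifiable : ¬ Certifiable (allStates 6) ψ0 := fun h =>
  ρ0_ne (h ρ0 ρ0_state ρ0_data)

end Pool.Agent.Q204.UC
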