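import Pool.Agent.Q204.UC.Vecs
import Pool.Agent.Q204.UC.Lin
import Mathlib.LinearAlgebra.FiniteDimensional.Lemmas

/-!
# Uniqueness among the pure states
-/

namespace Pool.Agent.Q204.UC

open Finset Matrix
open scoped ComplexOrder

/-- the six vectors, with complex values -/
noncomputable def vv (α : Fin 6) (s : Str 6) : ℂ := (vi α s : ℂ)

theorem sg_cast (b : Fin 2) : sg b = ((if b = 0 then (1 : ℤ) else -1 : ℤ) : ℂ) := by
  unfold sg
  split_ifs <;> simp

theorem vv_singlet (α : Fin 6) : Singlet (vv α) := by
  rw [singlet_iff]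
  intro s
  obtain ⟨h1, h2, h3⟩ := vi_singlet α s
  refine ⟨?_, ?_, ?_⟩
  · simp only [sg_cast, vv]
    exact_mod_cast h1
  · unfold lo vv
    exact_mod_cast h2
  · unfold hi vv
    exact_mod_cast h3

/-- the combination of the six vectors with coefficients `x` -/
noncomputable def comb (x : Fin 6 → ℂ) (s : Str 6) : ℂ := ∑ α, x α * vv α s

theorem comb_singlet (x : Fin 6 → ℂ) : Singlet (comb x) := by
  intro n hn
  have h : comb x = ∑ α, x α • vv α := by
    funext s
    simp [comb, Finset.sum_apply]
  rw [h, Matrix.mulVec_sum]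
  refine Finset.sum_eq_zero fun α _ => ?_
  rw [Matrix.mulVec_smul, vv_singlet α n hn, smul_zero]

theorem singlet_supp {φ : Str 6 → ℂ} (h : Singlet φ) (s : Str 6) (hs : wt s ≠ 3) : φ s = 0 := by
  have h1 := ((singlet_iff φ).1 h s).1
  have h2 : ∀ s : Str 6, wt s ≠ 3 → (∑ i, (if s i = 0 then (1 : ℤ) else -1)) ≠ 0 := by
    decide +kernel
  have h3 : ∑ i, sg (s i) ≠ 0 := by
    simp only [sg_cast]
    exact_mod_cast h2 s hs
  exact (mul_eq_zero.1 h1).resolve_left h3

/-- flipping a bit, as a permutation of the strings -/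
def flipE (i : Fin 6) : Str 6 ≃ Str 6 := ⟨flip i, flip i, flip_flip i, flip_flip i⟩

/-- the coefficients of a singlet -/
noncomputable def coef (φ : Str 6 → ℂ) (α : Fin 6) : ℂ := (∑ t, vv α t * φ t) / 24

theorem expand {φ : Str 6 → ℂ} (h : Singlet φ) : φ = comb (coef φ) := by
  funext s
  unfold comb coef
  by_cases hs : wt s = 3
  · have h1 : ∑ t, (if s = t then (24 : ℂ) else 0) * φ t = 24 * φ s := by
      simp
    have h2 : ∀ t, (if s = t then (24 : ℂ) else 0) * φ t =
        (∑ α, vv α s * vv α t) * φ t +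
          (∑ i, if t i = 1 then (cc s (flip i t) : ℂ) else 0) * φ t := by
      intro t
      by_cases ht : wt t = 3
      · have h3 := vi_complete s t hs ht
        rw [← add_mul]
        congr 1
        unfold vv
        exact_mod_cast h3.symm
      · rw [singlet_supp h t ht]
        simp
    have h3 : ∑ t, (∑ i, if t i = 1 then (cc s (flip i t) : ℂ) else 0) * φ t = 0 := by
      simp only [Finset.sum_mul]
      rw [Finset.sum_comm]
      have h4 : ∀ i, ∑ t : Str 6, (if t i = 1 then (cc s (flip i t) : ℂ) else 0) * φ t =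
          ∑ r : Str 6, (cc s r : ℂ) * (if r i = 0 then φ (flip i r) else 0) := by
        intro i
        rw [← Equiv.sum_comp (flipE i)]
        refine Finset.sum_congr rfl fun r _ => ?_
        change (if flip i r i = 1 then (cc s (flip i (flip i r)) : ℂ) else 0) * φ (flip i r) = _
        rw [flip_flip, flip_self]
        rcases (by decide : ∀ b : Fin 2, b = 0 ∨ b = 1) (r i) with hb | hb
        · rw [hb]; simp
        · rw [hb]; simp
      simp only [h4]
      rw [Finset.sum_comm]
      refine Finset.sum_eq_zero fun r _ => ?_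
      rw [← Finset.mul_sum]
      have := ((singlet_iff φ).1 h r).2.1
      unfold lo at this
      rw [this, mul_zero]
    simp only [h2, Finset.sum_add_distrib, h3, add_zero] at h1
    have h5 : ∑ t, (∑ α, vv α s * vv α t) * φ t = ∑ α, vv α s * ∑ t, vv α t * φ t := by
      simp only [Finset.sum_mul, Finset.mul_sum]
      rw [Finset.sum_comm]
      exact Finset.sum_congr rfl fun α _ => Finset.sum_congr rfl fun t _ => by ring
    rw [h5] at h1
    have h6 : ∑ α, (∑ t, vv α t * φ t) / 24 * vv α s =
        (∑ α, vv α s * ∑ t, vv α t * φ t) / 24 := by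
      rw [Finset.sum_div]
      exact Finset.sum_congr rfl fun α _ => by ring
    rw [h6, h1]
    ring
  · rw [singlet_supp h s hs]
    symm
    refine Finset.sum_eq_zero fun α _ => ?_
    unfold vv vi
    rw [if_neg hs]
    simp

theorem coef_sum (φ : Str 6 → ℂ) : ∑ α, coef φ α = 0 := by
  unfold coef
  rw [← Finset.sum_div, Finset.sum_comm]
  have : ∀ t, ∑ α, vv α t * φ t = 0 := by
    intro t
    rw [← Finset.sum_mul]
    have h : ∑ α, vv α t = 0 := by
      unfold vv
      exact_mod_cast vi_sum t
    rw [h, zero_mul]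
  simp [this]

/-! ### data in the vertical direction -/

theorem obs_ez_apply (I : Finset (Fin 6)) (s t : Str 6) :
    obs ez I s t = if s = t then ∏ i ∈ I, sg (s i) else 0 := by
  have key : ∀ (j : Fin 6) (a b : Fin 2),
      (if j ∈ I then sig ez else (1 : Matrix (Fin 2) (Fin 2) ℂ)) a b =
        if a = b then (if j ∈ I then sg a else 1) else 0 := by
    intro j a b
    by_cases hj : j ∈ I
    · simp only [if_pos hj]
      fin_cases a <;> fin_cases b <;> simp [sig, ez, pX, pY, pZ, sg]
    · simp only [if_neg hj]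
      exact Matrix.one_apply
  change ∏ j, (if j ∈ I then sig ez else (1 : Matrix (Fin 2) (Fin 2) ℂ)) (s j) (t j) = _
  simp only [key]
  by_cases h : s = t
  · subst h
    simp only [if_true]
    rw [Finset.prod_ite_mem, Finset.univ_inter]
  · rw [if_neg h]
    obtain ⟨i, hi⟩ := Function.ne_iff.1 h
    exact Finset.prod_eq_zero (Finset.mem_univ i) (if_neg hi)

theorem data_ez (φ : Str 6 → ℂ) (I : Finset (Fin 6)) :
    data (proj φ) ez I = ∑ s, (∏ i ∈ I, sg (s i)) * (star (φ s) * φ s) := by
  rw [data_proj]
  unfold dotProduct Matrix.mulVec dotProduct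
  refine Finset.sum_congr rfl fun s _ => ?_
  simp only [obs_ez_apply, ite_mul, zero_mul, Finset.sum_ite_eq, Finset.mem_univ, if_true,
    Pi.star_apply]
  ring

theorem star_vv (α : Fin 6) (s : Str 6) : star (vv α s) = vv α s := by
  unfold vv
  simp

theorem quad (x : Fin 6 → ℂ) (w : Str 6 → ℂ) :
    ∑ s, w s * (star (comb x s) * comb x s) =
      ∑ α, ∑ β, star (x α) * x β * ∑ s, w s * (vv α s * vv β s) := by
  calc ∑ s, w s * (star (comb x s) * comb x s)
      = ∑ s, ∑ α, ∑ β, star (x α) * x β * (w s * (vv α s * vv β s)) := by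
        refine Finset.sum_congr rfl fun s _ => ?_
        unfold comb
        rw [star_sum, Finset.sum_mul_sum, Finset.mul_sum]
        refine Finset.sum_congr rfl fun α _ => ?_
        rw [Finset.mul_sum]
        refine Finset.sum_congr rfl fun β _ => ?_
        rw [star_mul', star_vv]
        ring
    _ = ∑ α, ∑ s, ∑ β, star (x α) * x β * (w s * (vv α s * vv β s)) := Finset.sum_comm
    _ = _ := by
        refine Finset.sum_congr rfl fun α _ => ?_
        rw [Finset.sum_comm]
        refine Finset.sum_congr rfl fun β _ => ?_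
        rw [Finset.mul_sum]

theorem data_pair (x : Fin 6 → ℂ) (k : Fin 15) :
    data (proj (comb x)) ez {pI k, pJ k} =
      ∑ α, ∑ β, star (x α) * x β * (if α = β then -4 else if β = pP k α then -12 else 4) := by
  rw [data_ez, quad]
  refine Finset.sum_congr rfl fun α _ => Finset.sum_congr rfl fun β _ => ?_
  congr 1
  have hne : ∀ k, pI k ≠ pJ k := by decide +kernel
  have h1 : ∀ s : Str 6, ∏ i ∈ ({pI k, pJ k} : Finset (Fin 6)), sg (s i) =
      sg (s (pI k)) * sg (s (pJ k)) := fun s => Finset.prod_pair (hne k)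
  simp only [h1]
  simp only [sg_cast, vv]
  exact_mod_cast vi_pair k α β

theorem data_empty (x : Fin 6 → ℂ) :
    data (proj (comb x)) ez ∅ =
      ∑ α, ∑ β, star (x α) * x β * (if α = β then 20 else -4) := by
  rw [data_ez, quad]
  refine Finset.sum_congr rfl fun α _ => Finset.sum_congr rfl fun β _ => ?_
  congr 1
  simp only [Finset.prod_empty, one_mul, vv]
  exact_mod_cast vi_inner α β

end Pool.Agent.Q204.UC
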