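import Pool.Agent.Q204.UC.Pure

/-!
# Uniqueness among the pure states, linear algebra
-/

namespace Pool.Agent.Q204.UC

open Finset Matrix
open scoped ComplexOrder

/-- a symmetric matrix with vanishing row sums, trace and sums over the fifteen matchings has the
form `g_α + g_β` off the diagonal and `-4 g_α` on the diagonal -/
theorem shape (E : Fin 6 → Fin 6 → ℝ) (hs : ∀ α β, E α β = E β α) (hr : ∀ α, ∑ β, E α β = 0)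
    (ht : ∑ α, E α α = 0) (hm : ∀ k : Fin 15, ∑ α, E α (pP k α) = 0) (α β : Fin 6) (hne : α ≠ β) :
    E α β = -(E α α + E β β) / 4 := by
  have m0 : E 0 1 + E 2 3 + E 4 5 = 0 := by
    have h := hm 0
    simp [Fin.sum_univ_succ, pP] at h
    linarith [hs 1 0, hs 2 0, hs 3 0, hs 4 0, hs 5 0, hs 2 1, hs 3 1, hs 4 1, hs 5 1, hs 3 2, hs 4 2, hs 5 2, hs 4 3, hs 5 3, hs 5 4]
  have m1 : E 0 5 + E 1 3 + E 2 4 = 0 := by
    have h := hm 1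
    simp [Fin.sum_univ_succ, pP] at h
    linarith [hs 1 0, hs 2 0, hs 3 0, hs 4 0, hs 5 0, hs 2 1, hs 3 1, hs 4 1, hs 5 1, hs 3 2, hs 4 2, hs 5 2, hs 4 3, hs 5 3, hs 5 4]
  have m2 : E 0 4 + E 1 2 + E 3 5 = 0 := by
    have h := hm 2
    simp [Fin.sum_univ_succ, pP] at h
    linarith [hs 1 0, hs 2 0, hs 3 0, hs 4 0, hs 5 0, hs 2 1, hs 3 1, hs 4 1, hs 5 1, hs 3 2, hs 4 2, hs 5 2, hs 4 3, hs 5 3, hs 5 4]
  have m3 : E 0 3 + E 1 4 + E 2 5 = 0 := by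
    have h := hm 3
    simp [Fin.sum_univ_succ, pP] at h
    linarith [hs 1 0, hs 2 0, hs 3 0, hs 4 0, hs 5 0, hs 2 1, hs 3 1, hs 4 1, hs 5 1, hs 3 2, hs 4 2, hs 5 2, hs 4 3, hs 5 3, hs 5 4]
  have m4 : E 0 2 + E 1 5 + E 3 4 = 0 := by
    have h := hm 4
    simp [Fin.sum_univ_succ, pP] at h
    linarith [hs 1 0, hs 2 0, hs 3 0, hs 4 0, hs 5 0, hs 2 1, hs 3 1, hs 4 1, hs 5 1, hs 3 2, hs 4 2, hs 5 2, hs 4 3, hs 5 3, hs 5 4]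
  have m5 : E 0 2 + E 1 4 + E 3 5 = 0 := by
    have h := hm 5
    simp [Fin.sum_univ_succ, pP] at h
    linarith [hs 1 0, hs 2 0, hs 3 0, hs 4 0, hs 5 0, hs 2 1, hs 3 1, hs 4 1, hs 5 1, hs 3 2, hs 4 2, hs 5 2, hs 4 3, hs 5 3, hs 5 4]
  have m6 : E 0 3 + E 1 5 + E 2 4 = 0 := by
    have h := hm 6
    simp [Fin.sum_univ_succ, pP] at h
    linarith [hs 1 0, hs 2 0, hs 3 0, hs 4 0, hs 5 0, hs 2 1, hs 3 1, hs 4 1, hs 5 1, hs 3 2, hs 4 2, hs 5 2, hs 4 3, hs 5 3, hs 5 4]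
  have m7 : E 0 5 + E 1 2 + E 3 4 = 0 := by
    have h := hm 7
    simp [Fin.sum_univ_succ, pP] at h
    linarith [hs 1 0, hs 2 0, hs 3 0, hs 4 0, hs 5 0, hs 2 1, hs 3 1, hs 4 1, hs 5 1, hs 3 2, hs 4 2, hs 5 2, hs 4 3, hs 5 3, hs 5 4]
  have m8 : E 0 4 + E 1 3 + E 2 5 = 0 := by
    have h := hm 8
    simp [Fin.sum_univ_succ, pP] at h
    linarith [hs 1 0, hs 2 0, hs 3 0, hs 4 0, hs 5 0, hs 2 1, hs 3 1, hs 4 1, hs 5 1, hs 3 2, hs 4 2, hs 5 2, hs 4 3, hs 5 3, hs 5 4]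
  have m9 : E 0 1 + E 2 5 + E 3 4 = 0 := by
    have h := hm 9
    simp [Fin.sum_univ_succ, pP] at h
    linarith [hs 1 0, hs 2 0, hs 3 0, hs 4 0, hs 5 0, hs 2 1, hs 3 1, hs 4 1, hs 5 1, hs 3 2, hs 4 2, hs 5 2, hs 4 3, hs 5 3, hs 5 4]
  have m10 : E 0 4 + E 1 5 + E 2 3 = 0 := by
    have h := hm 10
    simp [Fin.sum_univ_succ, pP] at h
    linarith [hs 1 0, hs 2 0, hs 3 0, hs 4 0, hs 5 0, hs 2 1, hs 3 1, hs 4 1, hs 5 1, hs 3 2, hs 4 2, hs 5 2, hs 4 3, hs 5 3, hs 5 4]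
  have m11 : E 0 3 + E 1 2 + E 4 5 = 0 := by
    have h := hm 11
    simp [Fin.sum_univ_succ, pP] at h
    linarith [hs 1 0, hs 2 0, hs 3 0, hs 4 0, hs 5 0, hs 2 1, hs 3 1, hs 4 1, hs 5 1, hs 3 2, hs 4 2, hs 5 2, hs 4 3, hs 5 3, hs 5 4]
  have m12 : E 0 2 + E 1 3 + E 4 5 = 0 := by
    have h := hm 12
    simp [Fin.sum_univ_succ, pP] at h
    linarith [hs 1 0, hs 2 0, hs 3 0, hs 4 0, hs 5 0, hs 2 1, hs 3 1, hs 4 1, hs 5 1, hs 3 2, hs 4 2, hs 5 2, hs 4 3, hs 5 3, hs 5 4]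
  have m13 : E 0 5 + E 1 4 + E 2 3 = 0 := by
    have h := hm 13
    simp [Fin.sum_univ_succ, pP] at h
    linarith [hs 1 0, hs 2 0, hs 3 0, hs 4 0, hs 5 0, hs 2 1, hs 3 1, hs 4 1, hs 5 1, hs 3 2, hs 4 2, hs 5 2, hs 4 3, hs 5 3, hs 5 4]
  have m14 : E 0 1 + E 2 4 + E 3 5 = 0 := by
    have h := hm 14
    simp [Fin.sum_univ_succ, pP] at h
    linarith [hs 1 0, hs 2 0, hs 3 0, hs 4 0, hs 5 0, hs 2 1, hs 3 1, hs 4 1, hs 5 1, hs 3 2, hs 4 2, hs 5 2, hs 4 3, hs 5 3, hs 5 4]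
  have r0 : E 0 0 + E 0 1 + E 0 2 + E 0 3 + E 0 4 + E 0 5 = 0 := by
    have h := hr 0
    simp [Fin.sum_univ_succ] at h
    linarith [hs 1 0, hs 2 0, hs 3 0, hs 4 0, hs 5 0, hs 2 1, hs 3 1, hs 4 1, hs 5 1, hs 3 2, hs 4 2, hs 5 2, hs 4 3, hs 5 3, hs 5 4]
  have r1 : E 0 1 + E 1 1 + E 1 2 + E 1 3 + E 1 4 + E 1 5 = 0 := by
    have h := hr 1
    simp [Fin.sum_univ_succ] at h
    linarith [hs 1 0, hs 2 0, hs 3 0, hs 4 0, hs 5 0, hs 2 1, hs 3 1, hs 4 1, hs 5 1, hs 3 2, hs 4 2, hs 5 2, hs 4 3, hs 5 3, hs 5 4]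
  have r2 : E 0 2 + E 1 2 + E 2 2 + E 2 3 + E 2 4 + E 2 5 = 0 := by
    have h := hr 2
    simp [Fin.sum_univ_succ] at h
    linarith [hs 1 0, hs 2 0, hs 3 0, hs 4 0, hs 5 0, hs 2 1, hs 3 1, hs 4 1, hs 5 1, hs 3 2, hs 4 2, hs 5 2, hs 4 3, hs 5 3, hs 5 4]
  have r3 : E 0 3 + E 1 3 + E 2 3 + E 3 3 + E 3 4 + E 3 5 = 0 := by
    have h := hr 3
    simp [Fin.sum_univ_succ] at h
    linarith [hs 1 0, hs 2 0, hs 3 0, hs 4 0, hs 5 0, hs 2 1, hs 3 1, hs 4 1, hs 5 1, hs 3 2, hs 4 2, hs 5 2, hs 4 3, hs 5 3, hs 5 4]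
  have r4 : E 0 4 + E 1 4 + E 2 4 + E 3 4 + E 4 4 + E 4 5 = 0 := by
    have h := hr 4
    simp [Fin.sum_univ_succ] at h
    linarith [hs 1 0, hs 2 0, hs 3 0, hs 4 0, hs 5 0, hs 2 1, hs 3 1, hs 4 1, hs 5 1, hs 3 2, hs 4 2, hs 5 2, hs 4 3, hs 5 3, hs 5 4]
  have r5 : E 0 5 + E 1 5 + E 2 5 + E 3 5 + E 4 5 + E 5 5 = 0 := by
    have h := hr 5
    simp [Fin.sum_univ_succ] at h
    linarith [hs 1 0, hs 2 0, hs 3 0, hs 4 0, hs 5 0, hs 2 1, hs 3 1, hs 4 1, hs 5 1, hs 3 2, hs 4 2, hs 5 2, hs 4 3, hs 5 3, hs 5 4]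
  have t0 : E 0 0 + E 1 1 + E 2 2 + E 3 3 + E 4 4 + E 5 5 = 0 := by
    simp [Fin.sum_univ_succ] at ht
    linarith
  clear hm hr ht
  have o01 : E 0 1 = -(E 0 0 + E 1 1) / 4 := by linarith
  have o02 : E 0 2 = -(E 0 0 + E 2 2) / 4 := by linarith
  have o03 : E 0 3 = -(E 0 0 + E 3 3) / 4 := by linarith
  have o04 : E 0 4 = -(E 0 0 + E 4 4) / 4 := by linarith
  have o05 : E 0 5 = -(E 0 0 + E 5 5) / 4 := by linarith
  have o12 : E 1 2 = -(E 1 1 + E 2 2) / 4 := by linarith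
  have o13 : E 1 3 = -(E 1 1 + E 3 3) / 4 := by linarith
  have o14 : E 1 4 = -(E 1 1 + E 4 4) / 4 := by linarith
  have o15 : E 1 5 = -(E 1 1 + E 5 5) / 4 := by linarith
  have o23 : E 2 3 = -(E 2 2 + E 3 3) / 4 := by linarith
  have o24 : E 2 4 = -(E 2 2 + E 4 4) / 4 := by linarith
  have o25 : E 2 5 = -(E 2 2 + E 5 5) / 4 := by linarith
  have o34 : E 3 4 = -(E 3 3 + E 4 4) / 4 := by linarith
  have o35 : E 3 5 = -(E 3 3 + E 5 5) / 4 := by linarith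
  have o45 : E 4 5 = -(E 4 4 + E 5 5) / 4 := by linarith
  fin_cases α <;> fin_cases β <;> first | exact absurd rfl hne | assumption | skip
  all_goals
    simp only [Fin.zero_eta, Fin.mk_one, Fin.reduceFinMk]
    first
    | assumption
    | (rw [hs]; linarith)

end Pool.Agent.Q204.UC
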