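import Pool.Agent.Q204.UC.Core

/-!
# Six singlet vectors of six qubits
-/

namespace Pool.Agent.Q204.UC

open Finset Matrix
open scoped ComplexOrder

variable {N : ℕ}

/-- flip the bit `i` -/
def flip (i : Fin N) (s : Str N) : Str N := Function.update s i (s i + 1)

theorem flip_self (i : Fin N) (s : Str N) : flip i s i = s i + 1 := by
  simp [flip]

theorem flip_flip (i : Fin N) (s : Str N) : flip i (flip i s) = s := by
  unfold flip
  rw [Function.update_idem, Function.update_self]
  have : ∀ b : Fin 2, b + 1 + 1 = b := by decide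
  rw [this, Function.update_eq_self]

theorem flip_ne (i : Fin N) (s : Str N) : s ≠ flip i s := by
  intro h
  have h1 := congrFun h i
  rw [flip_self] at h1
  have : ∀ b : Fin 2, b ≠ b + 1 := by decide
  exact this _ h1

theorem obs_single_apply (n : Fin 3 → ℝ) (i : Fin N) (s t : Str N) :
    (obs n {i} : Op N) s t = (if t = s then sig n (s i) (s i) else 0) +
      (if t = flip i s then sig n (s i) (s i + 1) else 0) := by
  unfold obs tens
  by_cases h : ∀ j, j ≠ i → t j = s j
  · have h1 : ∏ j, (if j ∈ ({i} : Finset (Fin N)) then sig n else 1) (s j) (t j) =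
        sig n (s i) (t i) := by
      rw [Finset.prod_eq_single i]
      · simp
      · intro j _ hj
        rw [if_neg (by simpa using hj), h j hj, Matrix.one_apply_eq]
      · simp
    rw [h1]
    have h2 : ∀ a b : Fin 2, b = a ∨ b = a + 1 := by decide
    rcases h2 (s i) (t i) with h3 | h3
    · have h4 : t = s := by
        funext j
        by_cases hj : j = i
        · rw [hj, h3]
        · exact h j hj
      rw [if_pos h4, if_neg (by rw [h4]; exact flip_ne i s), h4, add_zero]
    · have h4 : t = flip i s := by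
        funext j
        by_cases hj : j = i
        · rw [hj, h3, flip_self]
        · rw [h j hj, flip, Function.update_of_ne hj]
      rw [if_pos h4, if_neg (by rw [h4]; exact (flip_ne i s).symm), h3, zero_add]
  · push Not at h
    obtain ⟨j, hj, hjt⟩ := h
    have h1 : ∏ j, (if j ∈ ({i} : Finset (Fin N)) then sig n else 1) (s j) (t j) = 0 := by
      apply Finset.prod_eq_zero (Finset.mem_univ j)
      rw [if_neg (by simpa using hj), Matrix.one_apply_ne (Ne.symm hjt)]
    rw [h1, if_neg, if_neg, add_zero]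
    · intro h2
      apply hjt
      rw [h2, flip, Function.update_of_ne hj]
    · intro h2
      exact hjt (by rw [h2])

theorem obs_single_mulVec (n : Fin 3 → ℝ) (i : Fin N) (φ : Str N → ℂ) (s : Str N) :
    (obs n {i} *ᵥ φ) s = sig n (s i) (s i) * φ s + sig n (s i) (s i + 1) * φ (flip i s) := by
  unfold Matrix.mulVec dotProduct
  simp only [obs_single_apply, add_mul, ite_mul, zero_mul, Finset.sum_add_distrib,
    Finset.sum_ite_eq', Finset.mem_univ, if_true]

/-- the sum of the values at the neighbours with one more `1` -/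
noncomputable def lo (φ : Str N → ℂ) (s : Str N) : ℂ := ∑ i, if s i = 0 then φ (flip i s) else 0

/-- the sum of the values at the neighbours with one `1` less -/
noncomputable def hi (φ : Str N → ℂ) (s : Str N) : ℂ := ∑ i, if s i = 1 then φ (flip i s) else 0

theorem tot_mulVec (n : Fin 3 → ℝ) (φ : Str N → ℂ) (s : Str N) :
    (tot N n *ᵥ φ) s = n 2 * ((∑ i, sg (s i)) * φ s) + (n 0 - n 1 * Complex.I) * lo φ s +
      (n 0 + n 1 * Complex.I) * hi φ s := by
  unfold tot lo hi
  rw [Matrix.sum_mulVec, Finset.sum_apply, Finset.sum_mul, Finset.mul_sum, Finset.mul_sum,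
    Finset.mul_sum, ← Finset.sum_add_distrib, ← Finset.sum_add_distrib]
  refine Finset.sum_congr rfl fun i _ => ?_
  rw [obs_single_mulVec]
  rcases (by decide : ∀ b : Fin 2, b = 0 ∨ b = 1) (s i) with h | h
  · rw [h]
    simp [sig, pX, pY, pZ, sg]
    left
    ring
  · rw [h]
    simp [sig, pX, pY, pZ, sg]

theorem singlet_iff (φ : Str N → ℂ) :
    Singlet φ ↔ ∀ s, (∑ i, sg (s i)) * φ s = 0 ∧ lo φ s = 0 ∧ hi φ s = 0 := by
  constructor
  · intro h s
    have h1 := congrFun (h ez ez_unit) s
    have h2 := congrFun (h ![1, 0, 0] (by simp [Fin.sum_univ_three])) s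
    have h3 := congrFun (h ![0, 1, 0] (by simp [Fin.sum_univ_three])) s
    rw [tot_mulVec] at h1 h2 h3
    simp [ez] at h1 h2 h3
    have h4 : Complex.I * (hi φ s - lo φ s) = 0 := by linear_combination h3
    have h5 : hi φ s - lo φ s = 0 := (mul_eq_zero.1 h4).resolve_left Complex.I_ne_zero
    refine ⟨mul_eq_zero.2 h1, ?_, ?_⟩
    · linear_combination (h2 - h5) / 2
    · linear_combination (h2 + h5) / 2
  · intro h n _
    funext s
    rw [tot_mulVec, (h s).1, (h s).2.1, (h s).2.2]
    simp

/-! ### the six vectors -/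

/-- the number of ones -/
def wt (s : Str 6) : ℕ := ∑ i, (s i : ℕ)

/-- the number with binary digits `s` -/
def code (s : Str 6) : ℕ := ∑ i, (s i : ℕ) * 2 ^ (i : ℕ)

/-- the strings at which the six vectors are positive -/
def mask : Fin 6 → ℕ := ![1708916285114496, 76563701995954176, 73201257969371136,
  5636234345463936, 5088574277951616, 72625354627885056]

/-- the six vectors: `±1` on the strings with three ones -/
def vi (α : Fin 6) (s : Str 6) : ℤ :=
  if wt s = 3 then (if (mask α).testBit (code s) then 1 else -1) else 0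

theorem vi_singlet : ∀ (α : Fin 6) (s : Str 6),
    (∑ i, (if s i = 0 then (1 : ℤ) else -1)) * vi α s = 0 ∧
    (∑ i, if s i = 0 then vi α (flip i s) else 0) = 0 ∧
    (∑ i, if s i = 1 then vi α (flip i s) else 0) = 0 := by
  decide +kernel

theorem vi_sum : ∀ s : Str 6, ∑ α, vi α s = 0 := by
  decide +kernel

theorem vi_sq : ∀ (α : Fin 6) (s : Str 6), vi α s * vi α s = if wt s = 3 then 1 else 0 := by
  decide +kernel

/-- the coefficients of the completeness relation -/
def cc (s r : Str 6) : ℤ :=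
  if wt r = 2 then
    (if (∑ i, (s i : ℕ) * (r i : ℕ)) = 2 then 6 else if (∑ i, (s i : ℕ) * (r i : ℕ)) = 1 then -2
      else 2) else 0

theorem vi_complete : ∀ s t : Str 6, wt s = 3 → wt t = 3 →
    (∑ α, vi α s * vi α t) + (∑ i, if t i = 1 then cc s (flip i t) else 0) =
      if s = t then 24 else 0 := by
  decide +kernel

/-- the first element of the `k`-th pair -/
def pI : Fin 15 → Fin 6 := ![0, 0, 0, 0, 0, 1, 1, 1, 1, 2, 2, 2, 3, 3, 4]

/-- the second element of the `k`-th pair -/
def pJ : Fin 15 → Fin 6 := ![1, 2, 3, 4, 5, 2, 3, 4, 5, 3, 4, 5, 4, 5, 5]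

/-- the matching belonging to the `k`-th pair -/
def pP : Fin 15 → Fin 6 → Fin 6 := ![![1, 0, 3, 2, 5, 4],
  ![5, 3, 4, 1, 2, 0],
  ![4, 2, 1, 5, 0, 3],
  ![3, 4, 5, 0, 1, 2],
  ![2, 5, 0, 4, 3, 1],
  ![2, 4, 0, 5, 1, 3],
  ![3, 5, 4, 0, 2, 1],
  ![5, 2, 1, 4, 3, 0],
  ![4, 3, 5, 1, 0, 2],
  ![1, 0, 5, 4, 3, 2],
  ![4, 5, 3, 2, 0, 1],
  ![3, 2, 1, 0, 5, 4],
  ![2, 3, 0, 1, 5, 4],
  ![5, 4, 3, 2, 1, 0],
  ![1, 0, 4, 5, 2, 3]]

theorem vi_pair : ∀ (k : Fin 15) (α β : Fin 6),
    (∑ s : Str 6, (if s (pI k) = 0 then (1 : ℤ) else -1) * (if s (pJ k) = 0 then (1 : ℤ) else -1) *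
      (vi α s * vi β s)) = if α = β then -4 else if β = pP k α then -12 else 4 := by
  decide +kernel

theorem vi_inner : ∀ (α β : Fin 6),
    (∑ s : Str 6, vi α s * vi β s) = if α = β then 20 else -4 := by
  decide +kernel

end Pool.Agent.Q204.UC
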